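import Pool.Agent.helper41.Semi.Nondet

namespace Pool.Agent.Results.MP_069684_lc.SemiMonotone

open Pool.Agent.helper38.Neg Pool.Agent.helper41.Semi

/-- A language in `NP/Poly` with monotone slices that has no small circuits that are monotone in
a large set `T` of inputs (the NOT gates do not see `T`, and are free otherwise). If a circuit
with `s` gates computes the slice of length `n` and its NOT gates do not see the inputs in `T`,
then `s + 2 ≥ 2 ^ (c (|T| / log n) ^ (1/4))`. -/
theorem result :
    ∃ A : Lang, InNPPoly A ∧ (∀ n, Monotone (A n)) ∧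
      ∃ c : ℝ, 0 < c ∧ ∀ n s : ℕ, 2 ≤ n → ∀ (T : Finset (Fin n)) (C : Circuit n s)
        (o : Fin (n + s)), C.Computes o (A n) → MonotoneIn C T →
          (2 : ℝ) ^ (c * ((T.card : ℝ) / Real.log n) ^ ((1 : ℝ) / 4)) ≤ s + 2 :=
  ⟨slang, slang_inNPPoly, slang_mono, 1 / 128, by norm_num, fun _ _ hn T C o hC h =>
    size_bound hn T C o hC h⟩

end Pool.Agent.Results.MP_069684_lc.SemiMonotone
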